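import Mathlib

namespace Pool.Agent.Results.MP_b41bf9_ag.Counter
open MvPolynomial

/-- geometric points of affine `n`-space over `F` -/
abbrev Pt (F : Type) [Field F] (n : ℕ) := Fin n → AlgebraicClosure F

variable {F : Type} [Field F] {n : ℕ}

/-- the action on geometric points of the polynomial map with components `T i` over `F` -/
noncomputable def act (T : Fin n → MvPolynomial (Fin n) F) (x : Pt F n) : Pt F n :=
  fun i => aeval x (T i)

/-- geometric points of the closed subvariety cut out by the ideal `I` of `F[x]` -/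
def V (I : Ideal (MvPolynomial (Fin n) F)) : Set (Pt F n) := {x | ∀ f ∈ I, aeval x f = 0}

/-- geometric nilpotence of a set of geometric points with one fixed point -/
def GNirr (T : Fin n → MvPolynomial (Fin n) F) (Y : Set (Pt F n)) : Prop :=
  ∃ P, act T P = P ∧ ∀ y ∈ Y, ∃ k, 1 ≤ k ∧ (act T)^[k] y = P

/-- the subvariety cut out by `I` is geometrically nilpotent: each irreducible component
(each minimal prime over `I`) is -/
def GN (T : Fin n → MvPolynomial (Fin n) F) (I : Ideal (MvPolynomial (Fin n) F)) : Prop :=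
  ∀ Q ∈ I.minimalPrimes, GNirr T (V Q)

/-- the map `x (z - x) (x y, y z, z^2)` -/
noncomputable def T0 (F : Type) [Field F] : Fin 3 → MvPolynomial (Fin 3) F :=
  ![X 0 * (X 2 - X 0) * (X 0 * X 1), X 0 * (X 2 - X 0) * (X 1 * X 2), X 0 * (X 2 - X 0) * X 2 ^ 2]

lemma kron1 {K ι : Type*} [Field K] (t : Finset ι) (a : ι → K) (d : ι → ℕ)
    (h : {c : K | ∑ i ∈ t, a i * c ^ d i = 0}.Infinite) (m : ℕ) :
    ∑ i ∈ t with d i = m, a i = 0 := by
  classical
  have h0 : (∑ i ∈ t, Polynomial.C (a i) * Polynomial.X ^ d i : Polynomial K) = 0 := by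
    apply Polynomial.eq_zero_of_infinite_isRoot
    refine h.mono ?_
    intro c hc
    simpa [Polynomial.IsRoot, Polynomial.eval_finsetSum] using hc
  have h1 := congrArg (fun p => Polynomial.coeff p m) h0
  simp only [Polynomial.finsetSum_coeff, Polynomial.coeff_C_mul, Polynomial.coeff_X_pow,
    Polynomial.coeff_zero] at h1
  rw [Finset.sum_filter]
  refine Eq.trans (Finset.sum_congr rfl fun i _ => ?_) h1
  by_cases hh : d i = m
  · simp [hh]
  · simp [hh, Ne.symm hh]

lemma kron {K ι : Type*} [Field K] (t : Finset ι) (a : ι → K) (d e : ι → ℕ)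
    (hinj : ∀ i ∈ t, ∀ j ∈ t, d i = d j → e i = e j → i = j) (S : Set K) (hS : S.Infinite)
    (h : ∀ s ∈ S, {c : K | ∑ i ∈ t, (a i * s ^ e i) * c ^ d i = 0}.Infinite) :
    ∀ i ∈ t, a i = 0 := by
  classical
  intro i hi
  have h1 := kron1 (t.filter fun j => d j = d i) a e
    (hS.mono fun s hs => kron1 t _ d (h s hs) (d i)) (e i)
  have h2 : ((t.filter fun j => d j = d i).filter fun j => e j = e i) = {i} := by
    ext j
    simp only [Finset.mem_filter, Finset.mem_singleton]
    constructor
    · rintro ⟨⟨h1, h2⟩, h3⟩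
      exact hinj j h1 i hi h2 h3
    · rintro rfl
      exact ⟨⟨hi, rfl⟩, rfl⟩
  rw [h2] at h1
  simpa using h1

noncomputable def pt (c u v : AlgebraicClosure F) : Pt F 3 := ![c * u, c * v, c]

noncomputable def kap (u v : AlgebraicClosure F) : ℕ → AlgebraicClosure F
  | 0 => 1
  | k + 1 => kap u v k ^ 4 * ((u * v ^ k) * (1 - u * v ^ k))

lemma act_pt (c u v : AlgebraicClosure F) :
    act (T0 F) (pt c u v) = pt (c ^ 4 * (u * (1 - u))) (u * v) v := by
  funext i
  fin_cases i <;> simp [act, T0, pt] <;> ring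

lemma iter_pt (c u v : AlgebraicClosure F) (k : ℕ) :
    (act (T0 F))^[k] (pt c u v) = pt (c ^ (4 ^ k) * kap u v k) (u * v ^ k) v := by
  induction k with
  | zero => simp [kap]
  | succ k ih =>
    rw [Function.iterate_succ_apply', ih, act_pt]
    congr 1
    · rw [kap, pow_succ 4 k, pow_mul]; ring
    · ring

lemma kap_ne (u v : AlgebraicClosure F) (k : ℕ) (h : ∀ i < k, u * v ^ i ≠ 0 ∧ u * v ^ i ≠ 1) :
    kap u v k ≠ 0 := by
  induction k with
  | zero => simp [kap]
  | succ k ih =>
    rw [kap]
    refine mul_ne_zero (pow_ne_zero _ (ih fun i hi => h i (by omega)))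
      (mul_ne_zero (h k (by omega)).1 (sub_ne_zero.2 (h k (by omega)).2.symm))

lemma iter_z (y : Pt F 3) (hy : y 2 = 0) (m : ℕ) : (act (T0 F))^[m] y 2 = 0 := by
  induction m with
  | zero => simpa
  | succ m ih =>
    rw [Function.iterate_succ_apply']
    generalize (act (T0 F))^[m] y = w at ih
    simp [act, T0, ih]

lemma eq_pt (y : Pt F 3) (hy : y 2 ≠ 0) : y = pt (y 2) (y 0 / y 2) (y 1 / y 2) := by
  funext i
  fin_cases i <;> simp [pt] <;> field_simp

lemma act_zero : act (T0 F) 0 = 0 := by
  funext i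
  fin_cases i <;> simp [act, T0]

lemma pt_zero (u v : AlgebraicClosure F) : pt 0 u v = 0 := by
  funext i
  fin_cases i <;> simp [pt]

lemma frob [Finite F] (p : ℕ) [CharP F p] (u : AlgebraicClosure F) :
    ∃ r, 1 ≤ r ∧ u ^ (p ^ r) = u := by
  have hu : IsIntegral F u := Algebra.IsIntegral.isIntegral u
  let L := IntermediateField.adjoin F {u}
  haveI : FiniteDimensional F L := IntermediateField.adjoin.finiteDimensional hu
  haveI : Finite L := Module.finite_of_finite F
  letI : Fintype L := Fintype.ofFinite L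
  haveI : CharP L p := charP_of_injective_algebraMap (algebraMap F L).injective p
  obtain ⟨r, -, hr⟩ := FiniteField.card L p
  refine ⟨r, r.2, ?_⟩
  have h := FiniteField.pow_card (⟨u, IntermediateField.mem_adjoin_simple_self F u⟩ : L)
  rw [hr] at h
  simpa using congrArg Subtype.val h

lemma ne_bot (I : Ideal (MvPolynomial (Fin 3) F)) (hI : GN (T0 F) I) : I ≠ ⊥ := by
  classical
  rintro rfl
  obtain ⟨P, -, hP⟩ := hI ⊥ (by rw [Ideal.minimalPrimes_eq_subsingleton_self]; rfl)
  have hall : ∀ y : Pt F 3, y ∈ V (⊥ : Ideal (MvPolynomial (Fin 3) F)) := by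
    intro y f hf
    rw [Ideal.mem_bot] at hf
    simp [hf]
  obtain ⟨k, -, hk⟩ := hP 0 (hall _)
  rw [Function.iterate_fixed act_zero] at hk
  obtain ⟨w, hw⟩ := Infinite.exists_notMem_finset ({0, 1} : Finset (AlgebraicClosure F))
  simp only [Finset.mem_insert, Finset.mem_singleton, not_or] at hw
  obtain ⟨l, -, hl⟩ := hP (pt 1 w 1) (hall _)
  rw [iter_pt, ← hk] at hl
  have := congrFun hl 2
  simp only [pt, one_pow, one_mul] at this
  exact kap_ne w 1 l (fun i _ => by simpa using hw) (by simpa using this)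

theorem result (F : Type) [Field F] [Finite F] :
    ∃ T : Fin 3 → MvPolynomial (Fin 3) F, ∀ I : Ideal (MvPolynomial (Fin 3) F), GN T I →
      ∃ J : Ideal (MvPolynomial (Fin 3) F), GN T J ∧
        ∀ k m : ℕ, ¬ (V J ⊆ (act T)^[k] ⁻¹' ((act T)^[m] '' V I)) := by
  classical
  refine ⟨T0 F, fun I hI => ?_⟩
  obtain ⟨P, hPI, hP0⟩ := Submodule.exists_mem_ne_zero_of_ne_bot (ne_bot I hI)
  obtain ⟨p, hp⟩ := CharP.exists F
  have hpp : p.Prime := by
    letI := Fintype.ofFinite F
    exact (FiniteField.card F p).choose_spec.1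
  set D := P.totalDegree with hD
  set q := p ^ (D + 1) with hq
  have hDq : D + 1 < q := Nat.lt_pow_self hpp.one_lt
  obtain ⟨q', hq'⟩ : ∃ q', q = q' + 2 := ⟨q - 2, by omega⟩
  refine ⟨Ideal.span {X 0 ^ q - X 1 * X 2 ^ (q' + 1)}, ?_, ?_⟩
  · intro Q hQ
    refine ⟨0, act_zero, fun y hy => ?_⟩
    have h1 := hy _ (hQ.1.2 (Ideal.subset_span rfl))
    simp only [map_sub, map_pow, aeval_X, map_mul, sub_eq_zero] at h1
    by_cases h0 : y 0 = 0
    · refine ⟨1, le_rfl, ?_⟩
      funext i
      fin_cases i <;> simp [act, T0, h0]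
    have h2 : y 2 ≠ 0 := by
      intro h2
      rw [h2] at h1
      exact h0 (by simpa [hq'] using h1)
    set u := y 0 / y 2 with hu
    have hu0 : u ≠ 0 := div_ne_zero h0 h2
    have hv : y 1 / y 2 = u ^ q := by
      rw [hu, div_pow, h1, hq']
      field_simp
      ring
    obtain ⟨r, hr, hur⟩ := frob p u
    obtain ⟨r', rfl⟩ : ∃ r', r = r' + 1 := ⟨r - 1, by omega⟩
    have hit : ∀ j, u ^ ((p ^ (r' + 1)) ^ j) = u := by
      intro j
      induction j with
      | zero => simp
      | succ j ih => rw [pow_succ, pow_mul, ih, hur]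
    obtain ⟨N, hN⟩ : ∃ N, p ^ (r' + 1) = N + 2 :=
      ⟨p ^ (r' + 1) - 2, by have := Nat.one_lt_pow (n := r' + 1) (by omega) hpp.one_lt; omega⟩
    have hN1 : u ^ (N + 1) = 1 := by
      rw [hN] at hur
      apply mul_left_cancel₀ hu0
      rw [mul_one, ← pow_succ']
      exact hur
    have hM : u = (u ^ q) ^ (q ^ r') := by
      rw [← pow_mul, ← pow_succ', hq, ← pow_mul, mul_comm, pow_mul, hit]
    refine ⟨q ^ r' * N + 1, by omega, ?_⟩
    rw [eq_pt y h2, hv, iter_pt, ← hu, kap]
    have : u * (u ^ q) ^ (q ^ r' * N) = 1 := by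
      rw [pow_mul, ← hM, ← pow_succ', hN1]
    rw [this]
    simp [pt_zero]
  · intro k m hsub
    let S : Set (AlgebraicClosure F) := {s | s ≠ 0 ∧ ∀ i < k, s ^ (q * i + 1) ≠ 1}
    have hS : S.Infinite := by
      have hfin : ({0} ∪ ⋃ i ∈ Finset.range k,
          {s : AlgebraicClosure F | s ^ (q * i + 1) = 1}).Finite := by
        refine (Set.finite_singleton _).union (Set.Finite.biUnion (Finset.finite_toSet _) ?_)
        intro i _
        refine (Polynomial.nthRoots (q * i + 1) (1 : AlgebraicClosure F)).toFinset.finite_toSet.subset ?_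
        intro s hs
        simpa [Polynomial.mem_nthRoots (Nat.succ_pos _)] using hs
      refine hfin.infinite_compl.mono ?_
      intro s hs
      simp only [Set.mem_compl_iff, Set.mem_union, Set.mem_singleton_iff, Set.mem_iUnion,
        Finset.mem_range, not_or, not_exists] at hs
      exact ⟨hs.1, fun i hi => hs.2 i hi⟩
    have hle : ∀ α ∈ P.support, α 0 ≤ D := fun α hα =>
      (monomial_le_degreeOf 0 hα).trans (degreeOf_le_totalDegree P 0)
    have key := kron P.support (fun α => algebraMap F (AlgebraicClosure F) (coeff α P))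
      (fun α => α 0 + α 1 + α 2) (fun α => α 0 + q * (k * α 0 + m * (D - α 0) + α 1)) ?_ S hS ?_
    · obtain ⟨α, hα⟩ := Finset.nonempty_iff_ne_empty.2 (support_eq_empty.not.2 hP0)
      have := key α hα
      rw [map_eq_zero] at this
      exact mem_support_iff.1 hα this
    · intro α hα β hβ h1 h2
      have ha := hle α hα
      have hb := hle β hβ
      have h0 : α 0 = β 0 := by
        have := congrArg (· % q) h2
        simp only [Nat.add_mul_mod_self_left] at this
        rwa [Nat.mod_eq_of_lt (by omega), Nat.mod_eq_of_lt (by omega)] at this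
      simp only [h0] at h1 h2
      have h3 : α 1 = β 1 := by
        have := Nat.eq_of_mul_eq_mul_left (by omega : 0 < q) (Nat.add_left_cancel h2)
        omega
      ext i
      fin_cases i
      · exact h0
      · exact h3
      · show α 2 = β 2
        omega
    · rintro s ⟨hs0, hs⟩
      set u' := s * (s ^ q) ^ k / (s ^ q) ^ m with hu'
      have hk0 : kap s (s ^ q) k ≠ 0 := kap_ne _ _ _ fun i hi =>
        ⟨mul_ne_zero hs0 (pow_ne_zero _ (pow_ne_zero _ hs0)), by
          rw [← pow_mul, ← pow_succ']; exact hs i hi⟩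
      apply Set.Infinite.of_image (fun c => c ^ (4 ^ m) * kap u' (s ^ q) m)
      refine (Set.finite_singleton (0 : AlgebraicClosure F)).infinite_compl.mono ?_
      intro w hw
      have hw0 : w ≠ 0 := hw
      obtain ⟨c, hc⟩ := IsAlgClosed.exists_pow_nat_eq (w / kap s (s ^ q) k)
        (n := 4 ^ k) (by positivity)
      have hmem : pt c s (s ^ q) ∈ V (Ideal.span
          {(X 0 ^ q - X 1 * X 2 ^ (q' + 1) : MvPolynomial (Fin 3) F)}) := by
        intro f hf
        obtain ⟨g, rfl⟩ := Ideal.mem_span_singleton'.1 hf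
        have : aeval (pt c s (s ^ q)) (X 0 ^ q - X 1 * X 2 ^ (q' + 1) : MvPolynomial (Fin 3) F)
            = 0 := by
          simp only [map_sub, map_pow, aeval_X, map_mul, pt]
          simp [hq']
          ring
        rw [map_mul, this, mul_zero]
      obtain ⟨y, hyI, hy⟩ := hsub hmem
      rw [iter_pt, hc, div_mul_cancel₀ _ hk0] at hy
      have hy2 : y 2 ≠ 0 := by
        intro h
        have := iter_z y h m
        rw [hy] at this
        exact hw0 (by simpa [pt] using this)
      rw [eq_pt y hy2, iter_pt] at hy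
      have e0 := congrFun hy 0
      have e1 := congrFun hy 1
      have e2 := congrFun hy 2
      simp only [pt, Matrix.cons_val_zero, Matrix.cons_val_one, Matrix.cons_val] at e0 e1 e2
      rw [e2] at e0 e1
      have e1' := mul_left_cancel₀ hw0 e1
      have e0' := mul_left_cancel₀ hw0 e0
      rw [e1'] at e0' e2
      have hsq : (s ^ q) ^ m ≠ 0 := pow_ne_zero _ (pow_ne_zero _ hs0)
      have e0'' : y 0 / y 2 = u' := by
        rw [hu', eq_div_iff hsq, e0']
      rw [e0''] at e2
      refine ⟨y 2, ?_, e2⟩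
      have hPy := hyI P hPI
      rw [eq_pt y hy2, e0'', e1', aeval_def, eval₂_eq'] at hPy
      have hmul := congrArg (· * ((s ^ q) ^ m) ^ D) hPy
      simp only [zero_mul, Finset.sum_mul] at hmul
      show ∑ α ∈ P.support, _ = 0
      rw [← hmul]
      refine Finset.sum_congr rfl fun α hα => ?_
      obtain ⟨b, hb⟩ := Nat.exists_eq_add_of_le (hle α hα)
      simp only [Fin.prod_univ_three, pt, Matrix.cons_val_zero, Matrix.cons_val_one,
        Matrix.cons_val]
      rw [hb, Nat.add_sub_cancel_left, hu']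
      generalize y 2 = z
      generalize α 0 = a0
      generalize α 1 = a1
      generalize α 2 = a2
      simp only [mul_pow, div_pow]
      field_simp
      ring

end Pool.Agent.Results.MP_b41bf9_ag.Counter
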